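import Pool.Agent.W770.PC.SphStms

set_option autoImplicit false

/-! Project PC, part graph: polynomials on the sphere. -/

open MeasureTheory Set Filter Topology
open scoped ENNReal NNReal RealInnerProductSpace

namespace Pool.Agent.W67.PC

open Pool.Agent.W770.PC

/-- `1 - y1^2 - y2^2` -/
noncomputable def Q : MvPolynomial (Fin 2) ℝ :=
  MvPolynomial.C 1 - MvPolynomial.X 0 ^ 2 - MvPolynomial.X 1 ^ 2

/-- the monomial part -/
noncomputable def M (m : Fin 3 →₀ ℕ) (c : ℝ) : MvPolynomial (Fin 2) ℝ :=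
  MvPolynomial.C c * MvPolynomial.X 0 ^ (m 0) * MvPolynomial.X 1 ^ (m 1) * Q ^ (m 2 / 2)

theorem Q_deg : Q.totalDegree ≤ 2 := by
  unfold Q
  refine (MvPolynomial.totalDegree_sub _ _).trans (max_le ?_ ?_)
  · refine (MvPolynomial.totalDegree_sub _ _).trans (max_le ?_ ?_)
    · rw [MvPolynomial.totalDegree_C]; norm_num
    · refine (MvPolynomial.totalDegree_pow _ _).trans ?_
      rw [MvPolynomial.totalDegree_X]
  · refine (MvPolynomial.totalDegree_pow _ _).trans ?_
    rw [MvPolynomial.totalDegree_X]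

theorem M_deg (m : Fin 3 →₀ ℕ) (c : ℝ) : (M m c).totalDegree ≤ m 0 + m 1 + m 2 := by
  unfold M
  refine (MvPolynomial.totalDegree_mul _ _).trans ?_
  have h1 : (Q ^ (m 2 / 2)).totalDegree ≤ m 2 := by
    refine (MvPolynomial.totalDegree_pow _ _).trans ?_
    calc m 2 / 2 * Q.totalDegree ≤ m 2 / 2 * 2 := Nat.mul_le_mul_left _ Q_deg
      _ ≤ m 2 := Nat.div_mul_le_self _ _
  have h2 : (MvPolynomial.C c * MvPolynomial.X 0 ^ (m 0) * MvPolynomial.X 1 ^ (m 1) :
      MvPolynomial (Fin 2) ℝ).totalDegree ≤ m 0 + m 1 := by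
    refine (MvPolynomial.totalDegree_mul _ _).trans ?_
    have h3 : (MvPolynomial.C c * MvPolynomial.X 0 ^ (m 0) :
        MvPolynomial (Fin 2) ℝ).totalDegree ≤ m 0 := by
      refine (MvPolynomial.totalDegree_mul _ _).trans ?_
      rw [MvPolynomial.totalDegree_C, zero_add, MvPolynomial.totalDegree_X_pow]
    rw [MvPolynomial.totalDegree_X_pow]
    omega
  omega

theorem pf_M (m : Fin 3 →₀ ℕ) (c : ℝ) (y : ℝ × ℝ) :
    pf (M m c) y = c * y.1 ^ (m 0) * y.2 ^ (m 1) * (1 - y.1 ^ 2 - y.2 ^ 2) ^ (m 2 / 2) := by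
  unfold pf M Q
  simp

theorem graph_thm (h1 : S_hh) : S_graph := by
  classical
  intro D P hP
  refine ⟨∑ m ∈ P.support, if m 2 % 2 = 0 then M m (P.coeff m) else 0,
    ∑ m ∈ P.support, if m 2 % 2 = 0 then 0 else M m (P.coeff m), ?_, ?_, ?_⟩
  · refine MvPolynomial.totalDegree_finsetSum_le ?_
    intro m hm
    have h2 := MvPolynomial.le_totalDegree hm
    rw [Finsupp.sum_fintype _ _ (by simp), Fin.sum_univ_three] at h2
    split_ifs
    · exact (M_deg m _).trans (h2.trans hP)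
    · simp
  · refine MvPolynomial.totalDegree_finsetSum_le ?_
    intro m hm
    have h2 := MvPolynomial.le_totalDegree hm
    rw [Finsupp.sum_fintype _ _ (by simp), Fin.sum_univ_three] at h2
    split_ifs
    · simp
    · exact (M_deg m _).trans (h2.trans hP)
  · intro y hy
    have h3 := (h1.2.2.2.1 y hy).2.1
    have e1 : ∀ (s : Finset (Fin 3 →₀ ℕ)) (F : (Fin 3 →₀ ℕ) → MvPolynomial (Fin 2) ℝ),
        pf (∑ m ∈ s, F m) y = ∑ m ∈ s, pf (F m) y := by
      intro s F
      unfold pf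
      rw [map_sum]
    unfold sf
    rw [MvPolynomial.eval_eq', e1, e1, Finset.sum_mul, ← Finset.sum_add_distrib]
    refine Finset.sum_congr rfl fun m _ => ?_
    rw [Fin.prod_univ_three]
    have hz : pf (0 : MvPolynomial (Fin 2) ℝ) y = 0 := by unfold pf; simp
    have h4 : m 2 = 2 * (m 2 / 2) + m 2 % 2 := (Nat.div_add_mod _ _).symm
    have e2 : (![y.1, y.2, hh y] : Fin 3 → ℝ) 0 = y.1 := rfl
    have e3 : (![y.1, y.2, hh y] : Fin 3 → ℝ) 1 = y.2 := rfl
    have e4 : (![y.1, y.2, hh y] : Fin 3 → ℝ) 2 = hh y := rfl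
    rw [e2, e3, e4]
    rcases Nat.mod_two_eq_zero_or_one (m 2) with h5 | h5
    · rw [if_pos h5, if_pos h5, pf_M, hz, ← h3, ← pow_mul]
      have h6 : 2 * (m 2 / 2) = m 2 := by omega
      rw [h6]
      ring
    · rw [if_neg (by omega), if_neg (by omega), pf_M, hz, ← h3, ← pow_mul]
      have h6 : hh y ^ (m 2) = hh y ^ (2 * (m 2 / 2)) * hh y := by
        rw [← pow_succ]
        congr 1
        omega
      rw [h6]
      ring

end Pool.Agent.W67.PC
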